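import Pool.Agent.MPd14d18.Switch
set_option autoImplicit false
namespace Pool.Agent.MPd14d18

open Finset

section main

variable {V : Type*} [Fintype V] [DecidableEq V]

theorem main_HF (H : SimpleGraph V) [DecidableRel H.Adj] (F : V → Finset ℕ) (d : ℕ)
    (hdeg : ∀ v, H.degree v + (F v).card ≤ d) (hsum : ∑ v, (F v).card ≤ d)
    (hF : ∀ v, ∀ c ∈ F v, c < d + 33) :
    ∃ φ : V → V → ℕ, (∀ u v, φ u v = φ v u) ∧
      (∀ u v, H.Adj u v → φ u v < d + 33 ∧ φ u v ∉ F u) ∧
      (∀ u v w, H.Adj u v → H.Adj u w → v ≠ w → φ u v ≠ φ u w) := by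
  classical
  let n : ℕ → ℕ := fun i => (univ.filter (fun v => i ∈ F v)).card
  let R : Finset ℕ := (range (d + 33)).filter (fun i => 2 ≤ n i)
  let e : V → ℕ := fun v => (F v \ R).card
  have hdouble : ∀ S : Finset ℕ, ∑ i ∈ S, n i = ∑ v, (F v ∩ S).card := by
    intro S
    simp only [n]
    simp_rw [Finset.card_filter]
    rw [Finset.sum_comm]
    refine Finset.sum_congr rfl fun v _ => ?_
    rw [← Finset.card_filter]
    congr 1
    ext c
    rw [mem_filter, mem_inter]
    tauto
  have hS2 : ∀ v, (F v ∩ R).card + e v = (F v).card := fun v =>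
    Finset.card_inter_add_card_sdiff (F v) R
  have hS3 : ∑ i ∈ R, n i + ∑ v, e v ≤ d := by
    rw [hdouble, ← Finset.sum_add_distrib]
    simp_rw [hS2]
    exact hsum
  have hR2 : 2 * R.card ≤ ∑ i ∈ R, n i := by
    rw [mul_comm, ← smul_eq_mul]
    apply Finset.card_nsmul_le_sum
    intro i hi
    exact (mem_filter.mp hi).2
  obtain ⟨Q, hQ1, hQ2, hQ3⟩ : ∃ Q, (∑ i ∈ R, n i ≤ Q) ∧
      (∀ w, 4 * (R.card + e w) + Q ≤ 4 * d) ∧
      (∀ x l : V → ℕ, (∀ v, x v ≤ (F v).card + l v) → (∀ v, x v ≤ R.card) →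
        ∑ v, l v ≤ ∑ i ∈ R, n i → ∑ v, x v ≤ 3 * Q) := by
    have hew : ∀ w, e w ≤ ∑ v, e v := fun w =>
      Finset.single_le_sum (f := e) (fun _ _ => Nat.zero_le _) (mem_univ w)
    by_cases hA : ∀ w, 2 * e w ≤ d
    · refine ⟨d, by omega, ?_, ?_⟩
      · intro w
        have h1 := hA w
        have h2 := hew w
        omega
      · intro x l hx1 _ hl
        have h1 : ∑ v, x v ≤ ∑ v, ((F v).card + l v) := Finset.sum_le_sum fun v _ => hx1 v
        rw [Finset.sum_add_distrib] at h1
        omega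
    · push Not at hA
      obtain ⟨w0, hw0⟩ := hA
      have h0 := hew w0
      refine ⟨d - e w0, by omega, ?_, ?_⟩
      · intro w
        by_cases hw : w = w0
        · subst hw
          omega
        · have h2 : e w + e w0 ≤ ∑ v, e v := by
            have h3 : ∑ v ∈ ({w, w0} : Finset V), e v ≤ ∑ v, e v :=
              Finset.sum_le_sum_of_subset (Finset.subset_univ _)
            rwa [Finset.sum_pair hw] at h3
          omega
      · intro x l hx1 hx2 hl
        have h1 : ∑ v, x v = x w0 + ∑ v ∈ univ.erase w0, x v :=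
          (Finset.add_sum_erase univ x (mem_univ w0)).symm
        have h2 : ∑ v ∈ univ.erase w0, x v ≤ ∑ v ∈ univ.erase w0, ((F v).card + l v) :=
          Finset.sum_le_sum fun v _ => hx1 v
        rw [Finset.sum_add_distrib] at h2
        have h3 : (F w0).card + ∑ v ∈ univ.erase w0, (F v).card = ∑ v, (F v).card :=
          Finset.add_sum_erase univ (fun v => (F v).card) (mem_univ w0)
        have h4 : ∑ v ∈ univ.erase w0, l v ≤ ∑ v, l v :=
          Finset.sum_le_sum_of_subset (Finset.subset_univ _)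
        have h5 := hS2 w0
        have h6 := hx2 w0
        omega
  let Rb : Finset ℕ := R.filter (fun i => ¬ (16 * n i ≤ Q))
  let R' : Finset ℕ := R.filter (fun i => 16 * n i ≤ Q)
  have hRR : R'.card + Rb.card = R.card := Finset.card_filter_add_card_filter_not _
  have hRb : Rb.card ≤ 15 := by
    have h1 : Rb.card * (Q + 1) ≤ ∑ i ∈ Rb, 16 * n i := by
      rw [← smul_eq_mul]
      apply Finset.card_nsmul_le_sum
      intro i hi
      have := (mem_filter.mp hi).2
      omega
    have h2 : ∑ i ∈ Rb, 16 * n i ≤ ∑ i ∈ R, 16 * n i :=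
      Finset.sum_le_sum_of_subset (Finset.filter_subset _ _)
    rw [← Finset.mul_sum] at h2
    by_contra hcon
    have h3 : 16 ≤ Rb.card := by omega
    have h4 : 16 * (Q + 1) ≤ Rb.card * (Q + 1) := Nat.mul_le_mul_right _ h3
    rw [← Finset.mul_sum] at h1 h2
    omega
  have hR'sub : R' ⊆ R := Finset.filter_subset _ _
  have hR'le : R'.card ≤ R.card := Finset.card_le_card hR'sub
  have hFR' : ∀ v, (F v ∩ R').card ≤ (F v ∩ R).card := fun v =>
    Finset.card_le_card (Finset.inter_subset_inter_left hR'sub)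
  have hB : ∀ v, H.degree v + (F v ∩ R').card + e v ≤ d := by
    intro v
    have h1 := hdeg v
    have h2 := hS2 v
    have h3 := hFR' v
    omega
  have hN : ∀ w, ∀ i ∈ R', 3 * Q < 16 * (d + 16 + 2 - R'.card - e w -
      (univ.filter (fun v => i ∈ F v)).card) := by
    intro w i hi
    have h1 : 16 * n i ≤ Q := (mem_filter.mp hi).2
    have h2 := hQ2 w
    have h3 : n i = (univ.filter (fun v => i ∈ F v)).card := rfl
    omega
  -- initial system
  have hR'd : R'.card ≤ d + 1 := by omega
  obtain ⟨L0, hL0sub, hL0⟩ := Infinite.exists_superset_card_eq R' (d + 1) hR'd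
  obtain ⟨N, hN1, hN2, hN3, hN4⟩ := vizing_family H L0 d
    (fun v => le_trans (Nat.le_add_right _ _) (hdeg v)) (le_of_eq hL0.symm)
  let M0 : ℕ → V → V := fun c v => if c ∉ F v ∧ c ∉ F (N c v) then N c v else v
  have hM0 : Sys H F R' M0 := by
    refine ⟨?_, ?_, ?_, ?_⟩
    · intro c v
      by_cases h : c ∉ F v ∧ c ∉ F (N c v)
      · have h1 : M0 c v = N c v := by simp only [M0]; rw [if_pos h]
        have h2 : M0 c (N c v) = N c (N c v) := by
          simp only [M0]
          rw [if_pos ⟨h.2, by rw [hN1]; exact h.1⟩]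
        rw [h1, h2, hN1]
      · have h1 : M0 c v = v := by simp only [M0]; rw [if_neg h]
        rw [h1, h1]
    · intro c hc v hv
      by_cases h : c ∉ F v ∧ c ∉ F (N c v)
      · have h1 : M0 c v = N c v := by simp only [M0]; rw [if_pos h]
        rw [h1] at hv ⊢
        exact hN2 c (hL0sub hc) v hv
      · have h1 : M0 c v = v := by simp only [M0]; rw [if_neg h]
        exact absurd h1 hv
    · intro c hc c' hc' v hv heq
      by_cases h : c ∉ F v ∧ c ∉ F (N c v)
      · have h1 : M0 c v = N c v := by simp only [M0]; rw [if_pos h]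
        by_cases h' : c' ∉ F v ∧ c' ∉ F (N c' v)
        · have h2 : M0 c' v = N c' v := by simp only [M0]; rw [if_pos h']
          rw [h1] at hv heq
          rw [h2] at heq
          exact hN3 c (hL0sub hc) c' (hL0sub hc') v hv heq
        · have h2 : M0 c' v = v := by simp only [M0]; rw [if_neg h']
          rw [h2] at heq
          exact absurd heq hv
      · have h1 : M0 c v = v := by simp only [M0]; rw [if_neg h]
        exact absurd h1 hv
    · intro c _ v hv
      simp only [M0]
      rw [if_neg (fun h => h.1 hv)]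
  let l : V → ℕ := fun v => ∑ c ∈ R', if c ∈ F (N c v) then 1 else 0
  have hl : ∑ v, l v ≤ ∑ i ∈ R, n i := by
    simp only [l]
    rw [Finset.sum_comm]
    refine le_trans (le_of_eq ?_) (Finset.sum_le_sum_of_subset hR'sub)
    refine Finset.sum_congr rfl fun c _ => ?_
    have hbij : Function.Bijective (N c) :=
      ⟨fun a b hab => by rw [← hN1 c a, hab, hN1], fun b => ⟨N c b, hN1 c b⟩⟩
    rw [Function.Bijective.sum_comp hbij (fun v => if c ∈ F v then 1 else 0)]
    simp only [n]
    rw [Finset.card_filter]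
  have hO : ∑ v, (load H F R' e M0 v - (d + 1)) ≤ 3 * Q := by
    apply hQ3 _ l
    · intro v
      have h1 : hole F R' M0 v ≤ (L0.filter (fun c => N c v = v)).card + l v := by
        have h2 : hole F R' M0 v ≤ ∑ c ∈ R', ((if N c v = v then 1 else 0) +
            (if c ∈ F (N c v) then 1 else 0)) := by
          unfold hole
          refine Finset.sum_le_sum fun c _ => ?_
          by_cases h3 : c ∉ F v ∧ M0 c v = v
          · rw [if_pos h3]
            by_cases h4 : c ∈ F (N c v)
            · rw [if_pos h4]; omega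
            · have h5 : M0 c v = N c v := by
                simp only [M0]; rw [if_pos ⟨h3.1, h4⟩]
              rw [h5] at h3
              rw [if_pos h3.2]; omega
          · rw [if_neg h3]; omega
        rw [Finset.sum_add_distrib] at h2
        have h6 : (∑ c ∈ R', if N c v = v then 1 else 0) ≤
            (L0.filter (fun c => N c v = v)).card := by
          rw [← Finset.card_filter]
          exact Finset.card_le_card (Finset.filter_subset_filter _ hL0sub)
        have h7 : (∑ c ∈ R', if c ∈ F (N c v) then 1 else 0) = l v := rfl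
        omega
      have h2 := hN4 v
      have h3 := hS2 v
      have h4 := hFR' v
      unfold load
      omega
    · intro v
      have h1 : hole F R' M0 v ≤ R'.card := by
        unfold hole
        rw [← Finset.card_filter]
        exact Finset.card_filter_le _ _
      have h2 := hB v
      unfold load
      omega
    · exact hl
  obtain ⟨M, hM, hload⟩ := switching H F R' e d 16 (3 * Q) hB hN M0 hM0 hO
  -- the remaining graph
  let Γ : SimpleGraph V := SimpleGraph.fromRel (fun u v => H.Adj u v ∧ ∀ c ∈ R', M c u ≠ v)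
  have hΓ : ∀ u v, Γ.Adj u v ↔ H.Adj u v ∧ ∀ c ∈ R', M c u ≠ v := by
    intro u v
    simp only [Γ, SimpleGraph.fromRel_adj]
    constructor
    · rintro ⟨_, h | h⟩
      · exact h
      · refine ⟨h.1.symm, fun c hc heq => h.2 c hc ?_⟩
        rw [← heq, hM.inv]
    · intro h
      exact ⟨h.1.ne, Or.inl h⟩
  have hL : (d + 17 - R'.card) + 1 ≤ (range (d + 33) \ R).card := by
    have h1 := Finset.le_card_sdiff R (range (d + 33))
    rw [Finset.card_range] at h1
    omega
  obtain ⟨ψ, hψ1, hψ2, hψ3⟩ := star_colouring Γ (fun v => F v \ R) (range (d + 33) \ R)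
    (d + 17 - R'.card)
    (by
      intro v
      have h1 := free_card H F R' e M hM v
      have h2 := hload v
      have h3 : Γ.degree v = (univ.filter (fun y => H.Adj v y ∧ ∀ c ∈ R', M c v ≠ y)).card := by
        rw [← SimpleGraph.card_neighborFinset_eq_degree]
        congr 1
        ext y
        rw [SimpleGraph.mem_neighborFinset, hΓ, mem_filter]
        simp
      have h4 : (F v \ R).card = e v := rfl
      omega)
    (by
      intro v c hc
      rw [mem_sdiff] at hc ⊢
      exact ⟨mem_range.mpr (hF v c hc.1), hc.2⟩)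
    (by
      intro u v huv
      rw [Finset.disjoint_left]
      intro c hc hc'
      rw [mem_sdiff] at hc hc'
      apply hc.2
      rw [mem_filter]
      refine ⟨mem_range.mpr (hF u c hc.1), ?_⟩
      have h1 : ({u, v} : Finset V) ⊆ univ.filter (fun v => c ∈ F v) := by
        intro w hw
        rw [mem_insert, mem_singleton] at hw
        rw [mem_filter]
        rcases hw with rfl | rfl
        · exact ⟨mem_univ _, hc.1⟩
        · exact ⟨mem_univ _, hc'.1⟩
      have h2 := Finset.card_le_card h1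
      rwa [Finset.card_pair huv] at h2)
    (by
      have h1 : ∑ v, (F v \ R).card = ∑ v, e v := rfl
      rw [h1]
      omega)
    hL
  have hψ2' : ∀ u v, Γ.Adj u v → ψ u v < d + 33 ∧ ψ u v ∉ R ∧ ψ u v ∉ F u := by
    intro u v h
    obtain ⟨h1, h2⟩ := hψ2 u v h
    rw [mem_sdiff, mem_range] at h1
    refine ⟨h1.1, h1.2, fun h3 => h2 ?_⟩
    rw [mem_sdiff]
    exact ⟨h3, h1.2⟩
  let φ : V → V → ℕ := fun u v => if h : ∃ c ∈ R', u ≠ v ∧ M c u = v then h.choose else ψ u v
  have hφM : ∀ u v, u ≠ v → ∀ c ∈ R', M c u = v → φ u v = c := by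
    intro u v huv c hc hcv
    have h : ∃ c ∈ R', u ≠ v ∧ M c u = v := ⟨c, hc, huv, hcv⟩
    simp only [φ, dif_pos h]
    obtain ⟨h1, h2, h3⟩ := h.choose_spec
    refine hM.inj _ h1 c hc u ?_ ?_
    · rw [h3]; exact huv.symm
    · rw [h3, hcv]
  have hφψ : ∀ u v, (¬ ∃ c ∈ R', u ≠ v ∧ M c u = v) → φ u v = ψ u v := by
    intro u v h
    simp only [φ, dif_neg h]
  have hcase : ∀ u v, H.Adj u v → (∃ c ∈ R', M c u = v ∧ φ u v = c) ∨
      (Γ.Adj u v ∧ φ u v = ψ u v) := by
    intro u v huv
    by_cases h : ∃ c ∈ R', u ≠ v ∧ M c u = v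
    · obtain ⟨c, hc, h1, h2⟩ := h
      exact Or.inl ⟨c, hc, h2, hφM u v h1 c hc h2⟩
    · refine Or.inr ⟨?_, hφψ u v h⟩
      rw [hΓ]
      refine ⟨huv, fun c hc hcv => h ⟨c, hc, huv.ne, hcv⟩⟩
  refine ⟨φ, ?_, ?_, ?_⟩
  · intro u v
    by_cases h : ∃ c ∈ R', u ≠ v ∧ M c u = v
    · obtain ⟨c, hc, h1, h2⟩ := h
      have h3 : M c v = u := by rw [← h2, hM.inv]
      rw [hφM u v h1 c hc h2, hφM v u h1.symm c hc h3]
    · have h' : ¬ ∃ c ∈ R', v ≠ u ∧ M c v = u := by
        rintro ⟨c, hc, h1, h2⟩
        exact h ⟨c, hc, h1.symm, by rw [← h2, hM.inv]⟩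
      rw [hφψ u v h, hφψ v u h', hψ1]
  · intro u v huv
    rcases hcase u v huv with ⟨c, hc, h1, h2⟩ | ⟨h1, h2⟩
    · rw [h2]
      refine ⟨mem_range.mp (mem_filter.mp (hR'sub hc)).1, fun h3 => ?_⟩
      have h4 := hM.fix c hc u h3
      rw [h1] at h4
      exact huv.ne h4.symm
    · rw [h2]
      obtain ⟨h3, h4, h5⟩ := hψ2' u v h1
      exact ⟨h3, h5⟩
  · intro u v w huv huw hvw
    rcases hcase u v huv with ⟨c, hc, h1, h2⟩ | ⟨h1, h2⟩
    · rcases hcase u w huw with ⟨c', hc', h1', h2'⟩ | ⟨h1', h2'⟩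
      · rw [h2, h2']
        rintro rfl
        exact hvw (h1.symm.trans h1')
      · rw [h2, h2']
        rintro rfl
        exact (hψ2' u w h1').2.1 (hR'sub hc)
    · rcases hcase u w huw with ⟨c', hc', h1', h2'⟩ | ⟨h1', h2'⟩
      · rw [h2, h2']
        rintro rfl
        exact (hψ2' u v h1).2.1 (hR'sub hc')
      · rw [h2, h2']
        exact hψ3 u v w h1 h1' hvw

end main

end Pool.Agent.MPd14d18
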