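import Pool.Agent.MPd14d18.Star
set_option autoImplicit false
namespace Pool.Agent.MPd14d18

open Finset

section switching

variable {V : Type*} [Fintype V] [DecidableEq V]

/-- disjoint matchings `M c` (`c ∈ R`) of `H`, the matching `M c` avoiding all vertices
where `c` is forbidden -/
structure Sys (H : SimpleGraph V) (F : V → Finset ℕ) (R : Finset ℕ) (M : ℕ → V → V) : Prop where
  inv : ∀ c v, M c (M c v) = v
  adj : ∀ c ∈ R, ∀ v, M c v ≠ v → H.Adj v (M c v)
  inj : ∀ c ∈ R, ∀ c' ∈ R, ∀ v, M c v ≠ v → M c v = M c' v → c = c'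
  fix : ∀ c ∈ R, ∀ v, c ∈ F v → M c v = v

/-- number of colours of `R` not forbidden at `v` whose matching misses `v` -/
def hole (F : V → Finset ℕ) (R : Finset ℕ) (M : ℕ → V → V) (v : V) : ℕ :=
  ∑ c ∈ R, if c ∉ F v ∧ M c v = v then 1 else 0

/-- the load of a vertex -/
def load (H : SimpleGraph V) [DecidableRel H.Adj] (F : V → Finset ℕ) (R : Finset ℕ)
    (e : V → ℕ) (M : ℕ → V → V) (v : V) : ℕ :=
  H.degree v + (F v ∩ R).card + e v + hole F R M v

theorem free_card (H : SimpleGraph V) [DecidableRel H.Adj] (F : V → Finset ℕ) (R : Finset ℕ)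
    (e : V → ℕ) (M : ℕ → V → V) (hM : Sys H F R M) (w : V) :
    (univ.filter (fun y => H.Adj w y ∧ ∀ c ∈ R, M c w ≠ y)).card + R.card + e w =
      load H F R e M w := by
  classical
  have h1 : H.degree w = (univ.filter (fun y => H.Adj w y ∧ ∀ c ∈ R, M c w ≠ y)).card +
      (R.filter (fun c => M c w ≠ w)).card := by
    have h2 : (R.filter (fun c => M c w ≠ w)).card =
        ((R.filter (fun c => M c w ≠ w)).image (fun c => M c w)).card := by
      rw [Finset.card_image_of_injOn]
      intro c hc c' hc' heq
      rw [Finset.mem_coe, mem_filter] at hc hc'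
      exact hM.inj c hc.1 c' hc'.1 w hc.2 heq
    rw [h2, ← Finset.card_union_of_disjoint, ← SimpleGraph.card_neighborFinset_eq_degree]
    · congr 1
      ext y
      simp only [SimpleGraph.mem_neighborFinset, mem_union, mem_filter, mem_univ, true_and,
        mem_image]
      constructor
      · intro hy
        by_cases h : ∀ c ∈ R, M c w ≠ y
        · exact Or.inl ⟨hy, h⟩
        · push Not at h
          obtain ⟨c, hc, hcy⟩ := h
          refine Or.inr ⟨c, ⟨hc, ?_⟩, hcy⟩
          rw [hcy]
          exact hy.ne'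
      · rintro (hy | ⟨c, ⟨hc, hcw⟩, rfl⟩)
        · exact hy.1
        · exact hM.adj c hc w hcw
    · rw [Finset.disjoint_left]
      intro y hy hy'
      rw [mem_filter] at hy
      rw [mem_image] at hy'
      obtain ⟨c, hc, rfl⟩ := hy'
      rw [mem_filter] at hc
      exact hy.2.2 c hc.1 rfl
  have h3 : (R.filter (fun c => M c w = w)).card + (R.filter (fun c => ¬ (M c w = w))).card =
      R.card := Finset.card_filter_add_card_filter_not _
  have h4 : (R.filter (fun c => M c w = w)).card = (F w ∩ R).card + hole F R M w := by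
    unfold hole
    rw [← Finset.card_filter, ← Finset.card_union_of_disjoint]
    · congr 1
      ext c
      simp only [mem_filter, mem_union, mem_inter]
      constructor
      · rintro ⟨h1, h2⟩
        by_cases h : c ∈ F w
        · exact Or.inl ⟨h, h1⟩
        · exact Or.inr ⟨h1, h, h2⟩
      · rintro (⟨h1, h2⟩ | ⟨h1, -, h2⟩)
        · exact ⟨h2, hM.fix c h2 w h1⟩
        · exact ⟨h1, h2⟩
    · rw [Finset.disjoint_left]
      intro c hc hc'
      rw [mem_inter] at hc
      rw [mem_filter] at hc'
      exact hc'.2.1 hc.1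
  have h5 : (R.filter (fun c => M c w ≠ w)).card = (R.filter (fun c => ¬ (M c w = w))).card :=
    rfl
  unfold load
  omega

omit [DecidableEq V] in
theorem sum_two (f g : V → ℕ) (w y : V) (hwy : w ≠ y) (k : ℕ)
    (h : ∀ v, v ≠ w → v ≠ y → f v ≤ g v) (h2 : f w + f y + k ≤ g w + g y) :
    ∑ v, f v + k ≤ ∑ v, g v := by
  classical
  rw [← Finset.add_sum_erase univ f (mem_univ w), ← Finset.add_sum_erase univ g (mem_univ w),
    ← Finset.add_sum_erase (univ.erase w) f (mem_erase.mpr ⟨hwy.symm, mem_univ y⟩),
    ← Finset.add_sum_erase (univ.erase w) g (mem_erase.mpr ⟨hwy.symm, mem_univ y⟩)]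
  have h3 : ∑ v ∈ (univ.erase w).erase y, f v ≤ ∑ v ∈ (univ.erase w).erase y, g v := by
    refine Finset.sum_le_sum fun v hv => ?_
    rw [mem_erase, mem_erase] at hv
    exact h v hv.2.1 hv.1
  omega

theorem move (H : SimpleGraph V) [DecidableRel H.Adj] (F : V → Finset ℕ) (R : Finset ℕ)
    (e : V → ℕ) (d k : ℕ) (M : ℕ → V → V) (hM : Sys H F R M) (w : V)
    (hw : d + 1 + k < load H F R e M w) (c : ℕ) (hc : c ∈ R) (hcF : c ∉ F w) (hcw : M c w = w)
    (y : V) (hwy : H.Adj w y) (hfree : ∀ c ∈ R, M c w ≠ y) (hcy : c ∉ F y)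
    (hgood : M c y = y ∨ load H F R e M (M c y) < d + 1 + k) :
    ∃ M', Sys H F R M' ∧
      ∑ v, (load H F R e M' v - (d + 1)) ≤ ∑ v, (load H F R e M v - (d + 1)) ∧
      ∑ v, (load H F R e M' v - (d + 1 + k)) < ∑ v, (load H F R e M v - (d + 1 + k)) := by
  classical
  have hne : w ≠ y := hwy.ne
  set y' := M c y with hy'
  have hyy : M c y' = y := by rw [hy', hM.inv]
  have hwy' : w ≠ y' := by
    intro h
    apply hne
    rw [← hyy, ← h, hcw]
  let M' : ℕ → V → V := fun c' v => if c' = c then
    (if v = w then y else if v = y then w else if v = y' then y' else M c v) else M c' v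
  have hoth : ∀ c', c' ≠ c → ∀ v, M' c' v = M c' v := by
    intro c' h v; simp [M', h]
  have hMw : M' c w = y := by simp [M']
  have hMy : M' c y = w := by simp [M', hne.symm]
  have hMv : ∀ v, v ≠ w → v ≠ y → v ≠ y' → M' c v = M c v := by
    intro v h1 h2 h3; simp [M', h1, h2, h3]
  have hMy' : y' ≠ y → M' c y' = y' := by
    intro h; simp [M', hwy'.symm, h]
  have hclosed : ∀ v, v ≠ w → v ≠ y → v ≠ y' → M c v ≠ w ∧ M c v ≠ y ∧ M c v ≠ y' := by
    intro v h1 h2 h3
    refine ⟨fun h => h1 ?_, fun h => h3 ?_, fun h => h2 ?_⟩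
    · rw [← hM.inv c v, h, hcw]
    · rw [← hM.inv c v, h]
    · rw [← hM.inv c v, h, hyy]
  have hsys : Sys H F R M' := by
    refine ⟨?_, ?_, ?_, ?_⟩
    · intro c' v
      by_cases hcc : c' = c
      · subst hcc
        by_cases h1 : v = w
        · subst h1; rw [hMw, hMy]
        · by_cases h2 : v = y
          · subst h2; rw [hMy, hMw]
          · by_cases h3 : v = y'
            · have h4 : y' ≠ y := fun h => h2 (h3.trans h)
              rw [h3, hMy' h4, hMy' h4]
            · obtain ⟨g1, g2, g3⟩ := hclosed v h1 h2 h3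
              rw [hMv v h1 h2 h3, hMv _ g1 g2 g3, hM.inv]
      · rw [hoth c' hcc, hoth c' hcc, hM.inv]
    · intro c' hc' v hv
      by_cases hcc : c' = c
      · subst hcc
        by_cases h1 : v = w
        · subst h1; rw [hMw]; exact hwy
        · by_cases h2 : v = y
          · subst h2; rw [hMy]; exact hwy.symm
          · by_cases h3 : v = y'
            · have h4 : y' ≠ y := fun h => h2 (h3.trans h)
              rw [h3, hMy' h4] at hv
              exact absurd rfl hv
            · rw [hMv v h1 h2 h3] at hv ⊢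
              exact hM.adj c' hc' v hv
      · rw [hoth c' hcc] at hv ⊢
        exact hM.adj c' hc' v hv
    · -- injectivity
      have key : ∀ c' ∈ R, c' ≠ c → ∀ v, M' c v ≠ v → M' c v ≠ M c' v := by
        intro c' hc' hcc v hv heq
        by_cases h1 : v = w
        · subst h1
          rw [hMw] at heq
          exact hfree c' hc' heq.symm
        · by_cases h2 : v = y
          · subst h2
            rw [hMy] at heq
            apply hfree c' hc'
            rw [heq, hM.inv]
          · by_cases h3 : v = y'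
            · have h4 : y' ≠ y := fun h => h2 (h3.trans h)
              rw [h3, hMy' h4] at hv
              exact hv rfl
            · rw [hMv v h1 h2 h3] at hv heq
              exact hcc (hM.inj c hc c' hc' v hv heq).symm
      intro c1 hc1 c2 hc2 v hv heq
      by_cases e1 : c1 = c
      · subst e1
        by_contra hne'
        have e2 : c2 ≠ c1 := fun h => hne' h.symm
        rw [hoth c2 e2] at heq
        exact key c2 hc2 e2 v hv heq
      · by_cases e2 : c2 = c
        · subst e2
          rw [heq] at hv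
          rw [hoth c1 e1] at heq
          exact absurd heq.symm (key c1 hc1 e1 v hv)
        · rw [hoth c1 e1] at hv heq
          rw [hoth c2 e2] at heq
          exact hM.inj c1 hc1 c2 hc2 v hv heq
    · intro c' hc' v hv
      by_cases hcc : c' = c
      · subst hcc
        by_cases h1 : v = w
        · subst h1; exact absurd hv hcF
        · by_cases h2 : v = y
          · subst h2; exact absurd hv hcy
          · by_cases h3 : v = y'
            · have h4 : y' ≠ y := fun h => h2 (h3.trans h)
              rw [h3, hMy' h4]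
            · rw [hMv v h1 h2 h3]
              exact hM.fix c' hc' v hv
      · rw [hoth c' hcc]
        exact hM.fix c' hc' v hv
  -- effect on the holes
  have hhole : ∀ v, hole F R M' v + (if c ∉ F v ∧ M c v = v then 1 else 0) =
      hole F R M v + (if c ∉ F v ∧ M' c v = v then 1 else 0) := by
    intro v
    unfold hole
    rw [← Finset.add_sum_erase R (fun c' => if c' ∉ F v ∧ M' c' v = v then 1 else 0) hc,
      ← Finset.add_sum_erase R (fun c' => if c' ∉ F v ∧ M c' v = v then 1 else 0) hc]
    have : ∑ c' ∈ R.erase c, (if c' ∉ F v ∧ M' c' v = v then 1 else 0) =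
        ∑ c' ∈ R.erase c, (if c' ∉ F v ∧ M c' v = v then 1 else 0) := by
      refine Finset.sum_congr rfl fun c' hc' => ?_
      rw [hoth c' (ne_of_mem_erase hc')]
    rw [this]
    omega
  have hw1 : load H F R e M' w + 1 = load H F R e M w := by
    have h1 := hhole w
    rw [hMw, if_pos ⟨hcF, hcw⟩, if_neg (fun h => hne h.2.symm)] at h1
    unfold load
    omega
  have hle : ∀ v, v ≠ w → v ≠ y' → load H F R e M' v ≤ load H F R e M v := by
    intro v h1 h3
    have h4 := hhole v
    by_cases h2 : v = y
    · subst h2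
      rw [hMy, if_neg (fun h : _ ∧ w = v => hne h.2)] at h4
      unfold load
      omega
    · rw [hMv v h1 h2 h3] at h4
      unfold load
      omega
  have hy1 : load H F R e M' y' ≤ load H F R e M y' + 1 := by
    have h4 := hhole y'
    have h5 : (if c ∉ F y' ∧ M' c y' = y' then 1 else 0) ≤ 1 := by split_ifs <;> omega
    unfold load
    omega
  have hy2 : y' = y → load H F R e M' y' ≤ load H F R e M y' := by
    intro h
    have h4 := hhole y'
    rw [h, hMy, if_neg (fun h : _ ∧ w = y => hne h.2)] at h4
    rw [h]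
    unfold load
    omega
  have hfin : load H F R e M' y' - (d + 1 + k) ≤ load H F R e M y' - (d + 1 + k) := by
    rcases hgood with h | h
    · have := hy2 h
      omega
    · omega
  refine ⟨M', hsys, ?_, ?_⟩
  · have := sum_two (fun v => load H F R e M' v - (d + 1)) (fun v => load H F R e M v - (d + 1))
      w y' hwy' 0 (fun v h1 h3 => by have := hle v h1 h3; omega)
      (by omega)
    simpa using this
  · have := sum_two (fun v => load H F R e M' v - (d + 1 + k))
      (fun v => load H F R e M v - (d + 1 + k))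
      w y' hwy' 1 (fun v h1 h3 => by have := hle v h1 h3; omega)
      (by omega)
    exact this

theorem switching (H : SimpleGraph V) [DecidableRel H.Adj] (F : V → Finset ℕ) (R : Finset ℕ)
    (e : V → ℕ) (d k O : ℕ)
    (hB : ∀ v, H.degree v + (F v ∩ R).card + e v ≤ d)
    (hN : ∀ w, ∀ i ∈ R, O < k * (d + k + 2 - R.card - e w -
      (univ.filter (fun v => i ∈ F v)).card))
    (M0 : ℕ → V → V) (hM0 : Sys H F R M0)
    (hO0 : ∑ v, (load H F R e M0 v - (d + 1)) ≤ O) :
    ∃ M, Sys H F R M ∧ ∀ v, load H F R e M v ≤ d + 1 + k := by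
  classical
  have hex : ∃ n, ∃ M, Sys H F R M ∧ ∑ v, (load H F R e M v - (d + 1)) ≤ O ∧
      ∑ v, (load H F R e M v - (d + 1 + k)) = n := ⟨_, M0, hM0, hO0, rfl⟩
  obtain ⟨M, hM, hO, hn⟩ := Nat.find_spec hex
  refine ⟨M, hM, ?_⟩
  by_contra hcon
  push Not at hcon
  obtain ⟨w, hw⟩ := hcon
  have hhole : 0 < hole F R M w := by
    have := hB w
    unfold load at hw
    omega
  obtain ⟨c, hc, hcF, hcw⟩ : ∃ c ∈ R, c ∉ F w ∧ M c w = w := by
    unfold hole at hhole
    rw [← Finset.card_filter, Finset.card_pos] at hhole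
    obtain ⟨c, hc⟩ := hhole
    rw [mem_filter] at hc
    exact ⟨c, hc.1, hc.2.1, hc.2.2⟩
  have hstuck : ∀ y, H.Adj w y → (∀ c ∈ R, M c w ≠ y) → c ∉ F y →
      M c y ≠ y ∧ d + 1 + k ≤ load H F R e M (M c y) := by
    intro y h1 h2 h3
    by_contra h4
    have h5 : M c y = y ∨ load H F R e M (M c y) < d + 1 + k := by
      by_cases h6 : M c y = y
      · exact Or.inl h6
      · right
        by_contra h7
        exact h4 ⟨h6, not_lt.mp h7⟩
    obtain ⟨M', hM', hO', hlt⟩ := move H F R e d k M hM w hw c hc hcF hcw y h1 h2 h3 h5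
    have h8 := Nat.find_min' hex ⟨M', hM', le_trans hO' hO, rfl⟩
    omega
  let Y : Finset V := univ.filter (fun y => (H.Adj w y ∧ ∀ c ∈ R, M c w ≠ y) ∧ c ∉ F y)
  let Z : Finset V := univ.filter (fun v => d + 1 + k ≤ load H F R e M v)
  have hYZ : Y.card ≤ Z.card := by
    have h1 : (Y.image (M c)).card = Y.card := by
      rw [Finset.card_image_of_injective]
      intro a b hab
      rw [← hM.inv c a, hab, hM.inv]
    rw [← h1]
    apply Finset.card_le_card
    intro v hv
    rw [mem_image] at hv
    obtain ⟨y, hy, rfl⟩ := hv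
    simp only [Y, mem_filter, mem_univ, true_and] at hy
    simp only [Z, mem_filter, mem_univ, true_and]
    exact (hstuck y hy.1.1 hy.1.2 hy.2).2
  have hZO : k * Z.card ≤ O := by
    refine le_trans ?_ hO
    calc k * Z.card = ∑ v ∈ Z, k := by simp [mul_comm]
      _ ≤ ∑ v ∈ Z, (load H F R e M v - (d + 1)) := by
          refine Finset.sum_le_sum fun v hv => ?_
          simp only [Z, mem_filter, mem_univ, true_and] at hv
          omega
      _ ≤ ∑ v, (load H F R e M v - (d + 1)) :=
          Finset.sum_le_sum_of_subset (Finset.subset_univ Z)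
  have hfree := free_card H F R e M hM w
  have hYc : (univ.filter (fun y => H.Adj w y ∧ ∀ c ∈ R, M c w ≠ y)).card ≤
      Y.card + (univ.filter (fun v => c ∈ F v)).card := by
    rw [← Nat.sub_le_iff_le_add]
    have h1 : (univ.filter (fun y => H.Adj w y ∧ ∀ c ∈ R, M c w ≠ y)) \
        (univ.filter (fun v => c ∈ F v)) ⊆ Y := by
      intro y hy
      rw [mem_sdiff, mem_filter, mem_filter] at hy
      simp only [Y, mem_filter, mem_univ, true_and]
      exact ⟨hy.1.2, fun h => hy.2 ⟨mem_univ _, h⟩⟩
    refine le_trans (Finset.le_card_sdiff _ _) (Finset.card_le_card h1)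
  have hNw := hN w c hc
  have h9 : d + k + 2 - R.card - e w - (univ.filter (fun v => c ∈ F v)).card ≤ Y.card := by
    omega
  have h10 := Nat.mul_le_mul_left k h9
  have h11 := Nat.mul_le_mul_left k hYZ
  omega

end switching

end Pool.Agent.MPd14d18
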